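import Mathlib
import Pool.Agent.Helper340.MB.Strat
import Pool.Agent.Helper340.MB.Beat

set_option autoImplicit false

namespace Pool.Agent.Results.MP_ba8873_co.BlockDisproof

open Finset

/-- The board: all edges of the complete graph on `N` vertices. -/
def board (N : ℕ) : Finset (Sym2 (Fin N)) := univ.filter (fun z => ¬ z.IsDiag)

/-- A position: the set of edges claimed so far by Maker and the set claimed by Breaker. -/
structure Pos (N : ℕ) where
  maker : Finset (Sym2 (Fin N))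
  breaker : Finset (Sym2 (Fin N))

/-- The edges that nobody has claimed yet. -/
def free {N : ℕ} (p : Pos N) : Finset (Sym2 (Fin N)) := board N \ (p.maker ∪ p.breaker)

/-- The play in which Maker follows the strategy `σ` and Breaker claims the set `R i` in his
`i`-th turn: `play σ R i` is the position after `i` rounds. In each round Maker moves first. -/
def play {N : ℕ} (σ : Pos N → Finset (Sym2 (Fin N))) (R : ℕ → Finset (Sym2 (Fin N))) : ℕ → Pos N
  | 0 => ⟨∅, ∅⟩
  | i + 1 => ⟨(play σ R i).maker ∪ σ (play σ R i), (play σ R i).breaker ∪ R i⟩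

/-- Maker's strategy is legal in the `(m:b)` game: in every position it claims exactly `m` free
edges, or all free edges if there are fewer than `m`. -/
def LegalStrategy {N : ℕ} (m : ℕ) (σ : Pos N → Finset (Sym2 (Fin N))) : Prop :=
  ∀ p, σ p ⊆ free p ∧ (σ p).card = min m (free p).card

/-- Breaker's turns are legal in the `(m:b)` game: each time he claims exactly `b` of the edges
that are still free after Maker's move, or all of them if there are fewer than `b`. -/
def LegalReplies {N : ℕ} (b : ℕ) (σ : Pos N → Finset (Sym2 (Fin N)))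
    (R : ℕ → Finset (Sym2 (Fin N))) : Prop :=
  ∀ i, R i ⊆ free (play σ R i) \ σ (play σ R i) ∧
    (R i).card = min b (free (play σ R i) \ σ (play σ R i)).card

/-- The edge set `M` contains all edges of a copy of `K_q`. -/
def ContainsClique {N : ℕ} (q : ℕ) (M : Finset (Sym2 (Fin N))) : Prop :=
  ∃ S : Finset (Fin N), S.card = q ∧ ∀ u ∈ S, ∀ v ∈ S, u ≠ v → s(u, v) ∈ M

/-- Maker has a legal strategy in the `(m:b)` game on `K_N` that builds `K_q` against every legal
play of Breaker: when all edges are claimed, Maker's edges contain a copy of `K_q`. -/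
def MakerCanBuild (m b N q : ℕ) : Prop :=
  ∃ σ : Pos N → Finset (Sym2 (Fin N)), LegalStrategy m σ ∧
    ∀ R : ℕ → Finset (Sym2 (Fin N)), LegalReplies b σ R →
      ∃ i, free (play σ R i) = ∅ ∧ ContainsClique q (play σ R i).maker

/-- `A` is the clique achievement number `A(K_N; clique; m:b)`: the largest `q` such that Maker
can build `K_q`. -/
def IsAchievementNumber (m b N A : ℕ) : Prop := IsGreatest {q : ℕ | MakerCanBuild m b N q} A

/-- `c = (m+b)/m` -/
noncomputable def c (m b : ℕ) : ℝ := ((m : ℝ) + b) / m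

/-- `c₀ = m/(m-b)` -/
noncomputable def c₀ (m b : ℕ) : ℝ := (m : ℝ) / ((m : ℝ) - b)

/-- The conjectured value
`Q(N) = 2 log_c (e N / (2 log_c N)) - 1 + 2 log c / log c₀`. -/
noncomputable def Q (m b N : ℕ) : ℝ :=
  2 * Real.logb (c m b) (Real.exp 1 * N / (2 * Real.logb (c m b) N)) - 1
    + 2 * Real.log (c m b) / Real.log (c₀ m b)

/-- The formula of Q1 for the pair `(m, b)`: there is a sequence `ε_N → 0` such that
`A(K_N; clique; m:b) = ⌊Q(N) + ε_N⌋` for all sufficiently large `N`. -/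
def Formula (m b : ℕ) : Prop :=
  ∃ ε : ℕ → ℝ, Filter.Tendsto ε Filter.atTop (nhds 0) ∧
    ∃ N₀ : ℕ, ∀ N : ℕ, N₀ ≤ N →
      ∃ A : ℕ, IsAchievementNumber m b N A ∧ (A : ℤ) = ⌊Q m b N + ε N⌋

/-- The statement of Q1: the formula holds for every pair `m > b ≥ 1`. -/
def Q1 : Prop := ∀ m b : ℕ, 1 ≤ b → b < m → Formula m b

/-- For the pair `(m, b)` the value `Q(N)` tends to infinity and is too small by a constant
factor: there is `δ > 0` with `A(K_N; clique; m:b) ≥ (1 + δ) Q(N)` for all large `N`. -/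
def Beaten (m b : ℕ) : Prop :=
  Filter.Tendsto (fun N : ℕ => Q m b N) Filter.atTop Filter.atTop ∧
  ∃ δ : ℝ, 0 < δ ∧ ∃ N₀ : ℕ, ∀ N : ℕ, N₀ ≤ N →
    ∃ A : ℕ, IsAchievementNumber m b N A ∧ (1 + δ) * Q m b N ≤ A

lemma le_of_canBuild {m b N q : ℕ} (h : MakerCanBuild m b N q) : q ≤ N := by
  obtain ⟨σ, hσ, h⟩ := h
  have hex : ∀ p : Pos N, ∃ r ⊆ free p \ σ p, r.card = min b (free p \ σ p).card :=
    fun p => exists_subset_card_eq (min_le_right _ _)
  choose r hr1 hr2 using hex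
  let P : ℕ → Pos N := fun i => Nat.rec ⟨∅, ∅⟩ (fun _ p => ⟨p.maker ∪ σ p, p.breaker ∪ r p⟩) i
  have hP : ∀ i, play σ (fun i => r (P i)) i = P i := by
    intro i
    induction i with
    | zero => rfl
    | succ i ih =>
      simp only [play]
      rw [ih]
  obtain ⟨i, _, S, hS, _⟩ := h (fun i => r (P i)) (fun i => by
    rw [hP i]
    exact ⟨hr1 _, hr2 _⟩)
  rw [← hS]
  exact (card_le_univ S).trans (by simp)

lemma canBuild_of_forces {m b N q : ℕ} (hm : 1 ≤ m)
    (hf : Pool.Agent.Helper340.MB.Forces m b (Pool.Agent.Helper340.MB.edges N)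
      (Pool.Agent.Helper340.MB.HasClique q) ∅ ∅) : MakerCanBuild m b N q := by
  obtain ⟨σ, hσ, hplay⟩ := Pool.Agent.Helper340.MB.exists_strategy hm hf
  refine ⟨fun p => σ p.maker p.breaker, fun p => hσ p.maker p.breaker, ?_⟩
  intro R hR
  obtain ⟨i, hi, hg⟩ := hplay (fun i => (play (fun p => σ p.maker p.breaker) R i).maker)
    (fun i => (play (fun p => σ p.maker p.breaker) R i).breaker) R rfl rfl
    (fun _ => rfl) (fun _ => rfl) (fun i => hR i)
  exact ⟨i, hi, hg⟩

lemma c_eq {m b : ℕ} (hm : 1 ≤ m) : Pool.Agent.Helper340.MB.cc m b = c m b := by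
  have hmp : (0 : ℝ) < m := by exact_mod_cast hm
  unfold Pool.Agent.Helper340.MB.cc c
  field_simp

lemma one_lt_c {m b : ℕ} (hm : 1 ≤ m) (hb : 1 ≤ b) : 1 < c m b := by
  have hmp : (0 : ℝ) < m := by exact_mod_cast hm
  have hbp : (0 : ℝ) < b := by exact_mod_cast hb
  unfold c
  rw [lt_div_iff₀ hmp]
  linarith

/-- the constant term of `Q` -/
noncomputable def K' (m b : ℕ) : ℝ := 2 * Real.logb (c m b) (Real.exp 1 / 2) - 1
    + 2 * Real.log (c m b) / Real.log (c₀ m b)

lemma Q_eq {m b N : ℕ} (hN : 1 ≤ N) (hl : 1 < Real.logb (c m b) N) :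
    Q m b N = 2 * Real.logb (c m b) N - 2 * Real.logb (c m b) (Real.logb (c m b) N) + K' m b := by
  have hNR : (0 : ℝ) < N := by exact_mod_cast hN
  unfold Q K'
  have e1 : Real.exp 1 * N / (2 * Real.logb (c m b) N)
      = (Real.exp 1 / 2) * (N / Real.logb (c m b) N) := by
    field_simp
  have hl0 : Real.logb (c m b) N ≠ 0 := by linarith
  rw [e1, Real.logb_mul (by positivity) (div_ne_zero hNR.ne' hl0),
    Real.logb_div hNR.ne' hl0]
  ring

lemma eventually_logb {m b : ℕ} (hm : 1 ≤ m) (hb : 1 ≤ b) :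
    Filter.Tendsto (fun N : ℕ => Real.logb (c m b) N) Filter.atTop Filter.atTop :=
  (Real.tendsto_logb_atTop (one_lt_c hm hb)).comp tendsto_natCast_atTop_atTop

lemma Q_tendsto {m b : ℕ} (hm : 1 ≤ m) (hb : 1 ≤ b) :
    Filter.Tendsto (fun N : ℕ => Q m b N) Filter.atTop Filter.atTop := by
  have hc := one_lt_c hm hb
  set L := Real.log (c m b) with hL
  have hL0 : 0 < L := Real.log_pos hc
  have h1 : ∀ᶠ x : ℝ in Filter.atTop, x + K' m b ≤ 2 * x - 2 * Real.logb (c m b) x + K' m b := by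
    have h4 := Real.isLittleO_log_id_atTop.def (show 0 < L / 2 by positivity)
    filter_upwards [h4, Filter.eventually_ge_atTop (1 : ℝ)] with x hx hx1
    rw [Real.norm_of_nonneg (Real.log_nonneg hx1), id, Real.norm_of_nonneg (by linarith)] at hx
    have h5 : Real.logb (c m b) x ≤ x / 2 := by
      unfold Real.logb
      rw [div_le_iff₀ hL0]
      linarith
    linarith
  have h2 := (eventually_logb hm hb).eventually h1
  have h3 := (eventually_logb hm hb).eventually_gt_atTop 1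
  have h5 : Filter.Tendsto (fun N : ℕ => Real.logb (c m b) N + K' m b) Filter.atTop Filter.atTop :=
    Filter.tendsto_atTop_add_const_right _ _ (eventually_logb hm hb)
  refine Filter.tendsto_atTop_mono' _ ?_ h5
  filter_upwards [h2, h3, Filter.eventually_ge_atTop 1] with N h6 h7 h8
  rw [Q_eq h8 h7]
  exact h6

theorem beaten_of_block {m b K : ℕ} (hb : 1 ≤ b) (hbm : b < m) (hK : K ^ 2 ≤ m)
    (hexp : (1 + b : ℝ) < c m b ^ K) : Beaten m b := by
  have hm : 1 ≤ m := by omega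
  refine ⟨Q_tendsto hm hb, ?_⟩
  have hexp' : (1 + b : ℝ) < Pool.Agent.Helper340.MB.cc m b ^ K := by rwa [c_eq hm]
  obtain ⟨δ, hδ, h⟩ := Pool.Agent.Helper340.MB.block_beats m b K hm hb
    (by rw [← sq]; exact hK) hexp'
  rw [c_eq hm] at h
  obtain ⟨N₁, h1⟩ := h (K' m b)
  have h2 := (eventually_logb hm hb).eventually_gt_atTop 1
  have h3 := (Q_tendsto hm hb).eventually_gt_atTop (2 / δ)
  obtain ⟨N₂, hN₂⟩ := Filter.eventually_atTop.mp h2
  obtain ⟨N₃, hN₃⟩ := Filter.eventually_atTop.mp h3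
  refine ⟨δ / 2, by positivity, max (max N₁ N₂) (max N₃ 1), ?_⟩
  intro N hN
  have e1 : N₁ ≤ N := (le_max_left _ _).trans ((le_max_left _ _).trans hN)
  have e2 : N₂ ≤ N := (le_max_right _ _).trans ((le_max_left _ _).trans hN)
  have e3 : N₃ ≤ N := (le_max_left _ _).trans ((le_max_right _ _).trans hN)
  have e4 : 1 ≤ N := (le_max_right _ _).trans ((le_max_right _ _).trans hN)
  have h4 := hN₂ N e2
  have h5 := hN₃ N e3
  have hQ : Q m b N ≤ 2 * Real.logb (c m b) N + K' m b := by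
    rw [Q_eq e4 h4]
    have : 0 ≤ Real.logb (c m b) (Real.logb (c m b) N) :=
      Real.logb_nonneg (one_lt_c hm hb) h4.le
    linarith
  have hQ0 : 0 < Q m b N := lt_trans (by positivity) h5
  have hcan : ∀ q : ℕ, (q : ℝ) ≤ (1 + δ) * Q m b N → MakerCanBuild m b N q := by
    intro q hq
    apply canBuild_of_forces hm
    apply h1 N e1
    refine hq.trans ?_
    exact mul_le_mul_of_nonneg_left hQ (by linarith)
  -- the greatest element
  have hne : (0 : ℕ) ∈ {q : ℕ | MakerCanBuild m b N q} := by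
    apply hcan
    push_cast
    positivity
  have hbd : BddAbove {q : ℕ | MakerCanBuild m b N q} := ⟨N, fun q hq => le_of_canBuild hq⟩
  have hmem := Nat.sSup_mem ⟨0, hne⟩ hbd
  refine ⟨sSup {q : ℕ | MakerCanBuild m b N q}, ⟨hmem, fun q hq => le_csSup hbd hq⟩, ?_⟩
  have h6 : ⌊(1 + δ) * Q m b N⌋₊ ≤ sSup {q : ℕ | MakerCanBuild m b N q} :=
    le_csSup hbd (hcan _ (Nat.floor_le (by positivity)))
  have h7 : (1 + δ) * Q m b N < ⌊(1 + δ) * Q m b N⌋₊ + 1 := Nat.lt_floor_add_one _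
  have h8 : (⌊(1 + δ) * Q m b N⌋₊ : ℝ) ≤ (sSup {q : ℕ | MakerCanBuild m b N q} : ℕ) := by
    exact_mod_cast h6
  have h9 : 1 < δ / 2 * Q m b N := by
    rw [div_lt_iff₀ hδ] at h5
    linarith
  linarith

theorem not_formula_of_beaten {m b : ℕ} (h : Beaten m b) : ¬ Formula m b := by
  rintro ⟨ε, hε, N₀, h1⟩
  obtain ⟨hQ, δ, hδ, N₁, h2⟩ := h
  have e1 : ∀ᶠ N : ℕ in Filter.atTop, ε N < 1 := hε.eventually_lt_const (by norm_num)
  have e2 := hQ.eventually_gt_atTop (1 / δ)
  obtain ⟨N, hN⟩ := (e1.and (e2.and ((Filter.eventually_ge_atTop N₀).and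
    (Filter.eventually_ge_atTop N₁)))).exists
  obtain ⟨hN1, hN2, hN3, hN4⟩ := hN
  obtain ⟨A, hA, hA2⟩ := h1 N hN3
  obtain ⟨A', hA', hA2'⟩ := h2 N hN4
  have hAA : A = A' := IsGreatest.unique hA hA'
  subst hAA
  have h5 : (A : ℝ) ≤ Q m b N + ε N := by
    have h6 := Int.floor_le (Q m b N + ε N)
    rw [← hA2] at h6
    exact_mod_cast h6
  rw [div_lt_iff₀ hδ] at hN2
  linarith

/-- every fixed ratio `b/m ≥ β > 0` is covered for large `m` -/
lemma exists_block (β : ℝ) (hβ : 0 < β) : ∃ m₀ : ℕ, ∀ m : ℕ, m₀ ≤ m → ∀ b : ℕ,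
    β * m ≤ b → b < m → ∃ K : ℕ, K ^ 2 ≤ m ∧ (1 + b : ℝ) < c m b ^ K := by
  have hr : 1 < 1 + β := by linarith
  have h1 := tendsto_pow_const_div_const_pow_of_one_lt 2 hr
  have h2 : ∀ᶠ n : ℕ in Filter.atTop, (n : ℝ) ^ 2 / (1 + β) ^ n < 1 / (1 + β) :=
    h1.eventually_lt_const (by positivity)
  obtain ⟨n₀, hn₀⟩ := Filter.eventually_atTop.mp h2
  refine ⟨max 1 (n₀ ^ 2), ?_⟩
  intro m hm b hb hbm
  have hm1 : 1 ≤ m := (le_max_left _ _).trans hm
  have hm2 : n₀ ^ 2 ≤ m := (le_max_right _ _).trans hm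
  have hmp : (0 : ℝ) < m := by exact_mod_cast hm1
  refine ⟨Nat.sqrt m, Nat.sqrt_le' m, ?_⟩
  have h3 : n₀ ≤ Nat.sqrt m := by
    rw [Nat.le_sqrt']
    exact hm2
  have h4 := hn₀ (Nat.sqrt m + 1) (by omega)
  have hc : 1 + β ≤ c m b := by
    unfold c
    rw [le_div_iff₀ hmp]
    linarith
  have h5 : (1 + β) ^ Nat.sqrt m ≤ c m b ^ Nat.sqrt m :=
    pow_le_pow_left₀ (by linarith) hc _
  refine lt_of_lt_of_le ?_ h5
  have h6 : ((Nat.sqrt m + 1 : ℕ) : ℝ) ^ 2 < (1 + β) ^ Nat.sqrt m := by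
    rw [div_lt_div_iff₀ (by positivity) (by linarith), pow_succ (1 + β)] at h4
    have h7 : 0 < 1 + β := by linarith
    nlinarith
  have h8 : (1 + b : ℝ) ≤ ((Nat.sqrt m + 1 : ℕ) : ℝ) ^ 2 := by
    have h9 : 1 + b ≤ (Nat.sqrt m + 1) ^ 2 := by
      have := Nat.lt_succ_sqrt' m
      rw [Nat.succ_eq_add_one] at this
      omega
    exact_mod_cast h9
  linarith

/-- **Disproof of Q1.**
(1) Q1 is false.
(2) For the `(25:24)` game the number `A(N)` even exceeds `Q(N)` by a constant factor.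
(3) The same is true for every pair `m > b ≥ 1` for which some `K` satisfies `K² ≤ m` and
`1 + b < ((m+b)/m)^K`.
(4) In particular for every `β > 0` it is true for all large `m` and all `b` with
`β m ≤ b < m`. -/
theorem result :
    ¬ Q1 ∧
    Beaten 25 24 ∧
    (∀ m b K : ℕ, 1 ≤ b → b < m → K ^ 2 ≤ m → (1 + b : ℝ) < c m b ^ K → Beaten m b) ∧
    (∀ β : ℝ, 0 < β → ∃ m₀ : ℕ, ∀ m : ℕ, m₀ ≤ m → ∀ b : ℕ, β * m ≤ b → b < m →
      Beaten m b ∧ ¬ Formula m b) := by
  have h25 : Beaten 25 24 := by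
    apply beaten_of_block (K := 5) (by norm_num) (by norm_num) (by norm_num)
    unfold c
    norm_num
  refine ⟨?_, h25, ?_, ?_⟩
  · intro h
    exact not_formula_of_beaten h25 (h 25 24 (by norm_num) (by norm_num))
  · intro m b K hb hbm hK hexp
    exact beaten_of_block hb hbm hK hexp
  · intro β hβ
    obtain ⟨m₀, h⟩ := exists_block β hβ
    refine ⟨m₀ + 1, ?_⟩
    intro m hm b hb hbm
    have hmp : (0 : ℝ) < m := by
      have : 0 < m := by omega
      exact_mod_cast this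
    have hb1 : 1 ≤ b := by
      have h1 : (0 : ℝ) < b := lt_of_lt_of_le (by positivity) hb
      have h2 : 0 < b := by exact_mod_cast h1
      omega
    obtain ⟨K, hK, hexp⟩ := h m (by omega) b hb hbm
    have := beaten_of_block hb1 hbm hK hexp
    exact ⟨this, not_formula_of_beaten this⟩

end Pool.Agent.Results.MP_ba8873_co.BlockDisproof
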