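import Mathlib
import Pool.Agent.Helper340.MB.Strat

set_option autoImplicit false

namespace Pool.Agent.Results.MP_ba8873_co.LowerBound

open Finset

/-- The board: all edges of the complete graph on `N` vertices. -/
def board (N : ℕ) : Finset (Sym2 (Fin N)) := univ.filter (fun z => ¬ z.IsDiag)

/-- A position: the set of edges claimed so far by Maker and the set claimed by Breaker. -/
structure Pos (N : ℕ) where
  maker : Finset (Sym2 (Fin N))
  breaker : Finset (Sym2 (Fin N))

/-- The edges that nobody has claimed yet. -/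
def free {N : ℕ} (p : Pos N) : Finset (Sym2 (Fin N)) := board N \ (p.maker ∪ p.breaker)

/-- The play in which Maker follows the strategy `σ` and Breaker claims the set `R i` in his
`i`-th turn: `play σ R i` is the position after `i` rounds. In each round Maker moves first. -/
def play {N : ℕ} (σ : Pos N → Finset (Sym2 (Fin N))) (R : ℕ → Finset (Sym2 (Fin N))) : ℕ → Pos N
  | 0 => ⟨∅, ∅⟩
  | i + 1 => ⟨(play σ R i).maker ∪ σ (play σ R i), (play σ R i).breaker ∪ R i⟩

/-- Maker's strategy is legal in the `(m:b)` game: in every position it claims exactly `m` free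
edges, or all free edges if there are fewer than `m`. -/
def LegalStrategy {N : ℕ} (m : ℕ) (σ : Pos N → Finset (Sym2 (Fin N))) : Prop :=
  ∀ p, σ p ⊆ free p ∧ (σ p).card = min m (free p).card

/-- Breaker's turns are legal in the `(m:b)` game: each time he claims exactly `b` of the edges
that are still free after Maker's move, or all of them if there are fewer than `b`. -/
def LegalReplies {N : ℕ} (b : ℕ) (σ : Pos N → Finset (Sym2 (Fin N)))
    (R : ℕ → Finset (Sym2 (Fin N))) : Prop :=
  ∀ i, R i ⊆ free (play σ R i) \ σ (play σ R i) ∧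
    (R i).card = min b (free (play σ R i) \ σ (play σ R i)).card

/-- The edge set `M` contains all edges of a copy of `K_q`. -/
def ContainsClique {N : ℕ} (q : ℕ) (M : Finset (Sym2 (Fin N))) : Prop :=
  ∃ S : Finset (Fin N), S.card = q ∧ ∀ u ∈ S, ∀ v ∈ S, u ≠ v → s(u, v) ∈ M

/-- Maker has a legal strategy in the `(m:b)` game on `K_N` that builds `K_q` against every legal
play of Breaker: when all edges are claimed, Maker's edges contain a copy of `K_q`. -/
def MakerCanBuild (m b N q : ℕ) : Prop :=
  ∃ σ : Pos N → Finset (Sym2 (Fin N)), LegalStrategy m σ ∧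
    ∀ R : ℕ → Finset (Sym2 (Fin N)), LegalReplies b σ R →
      ∃ i, free (play σ R i) = ∅ ∧ ContainsClique q (play σ R i).maker

/-- `c = (m+b)/m` -/
noncomputable def c (m b : ℕ) : ℝ := ((m : ℝ) + b) / m

/-- `c₀ = m/(m-b)` -/
noncomputable def c₀ (m b : ℕ) : ℝ := (m : ℝ) / ((m : ℝ) - b)

/-- The conjectured value
`Q(N) = 2 log_c (e N / (2 log_c N)) - 1 + 2 log c / log c₀`. -/
noncomputable def Q (m b N : ℕ) : ℝ :=
  2 * Real.logb (c m b) (Real.exp 1 * N / (2 * Real.logb (c m b) N)) - 1
    + 2 * Real.log (c m b) / Real.log (c₀ m b)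

/-- **Lower bound up to an additive constant.** For every pair `m > b ≥ 1` there is a constant `C`
such that for all sufficiently large `N` and every `q ≤ Q(N) - C` Maker can build `K_q` in the
`(m:b)` clique game on `K_N`; that is, `A(K_N; clique; m:b) ≥ ⌊Q(N) - C⌋`. (The clause `7 ≤ ...`
only records that the range of `q` is not vacuous.) -/
theorem result (m b : ℕ) (hb : 1 ≤ b) (hmb : b < m) :
    ∃ C : ℝ, ∃ N₀ : ℕ, ∀ N : ℕ, N₀ ≤ N → 7 ≤ Q m b N - C ∧
      ∀ q : ℕ, (q : ℝ) ≤ Q m b N - C → MakerCanBuild m b N q := by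
  have hm : 1 ≤ m := by omega
  have hmp : (0 : ℝ) < m := by exact_mod_cast hm
  have hbp : (0 : ℝ) < b := by exact_mod_cast hb
  obtain ⟨C, N₀, h⟩ := Pool.Agent.Helper340.MB.clique_forces m b hm hb
  have hcc : Pool.Agent.Helper340.MB.cc m b = c m b := by
    unfold Pool.Agent.Helper340.MB.cc c
    field_simp
  have hc1 : 1 < c m b := by
    rw [← hcc]
    unfold Pool.Agent.Helper340.MB.cc
    have := div_pos hbp hmp
    linarith
  rw [hcc] at h
  set K : ℝ := 2 * Real.logb (c m b) (Real.exp 1 / 2) - 1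
    + 2 * Real.log (c m b) / Real.log (c₀ m b) with hK
  obtain ⟨N₁, hN₁⟩ : ∃ N₁ : ℕ, ∀ N : ℕ, N₁ ≤ N → 1 < Real.logb (c m b) N := by
    have ht : Filter.Tendsto (fun N : ℕ => Real.logb (c m b) N) Filter.atTop Filter.atTop :=
      (Real.tendsto_logb_atTop hc1).comp tendsto_natCast_atTop_atTop
    exact Filter.eventually_atTop.mp (ht.eventually_gt_atTop 1)
  refine ⟨C + K, max (max N₀ N₁) 1, ?_⟩
  intro N hN
  have hN0 : N₀ ≤ N := (le_max_left _ _).trans ((le_max_left _ _).trans hN)
  have hN1 : N₁ ≤ N := (le_max_right _ _).trans ((le_max_left _ _).trans hN)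
  have hNp : 1 ≤ N := (le_max_right _ _).trans hN
  have hNR : (0 : ℝ) < N := by exact_mod_cast hNp
  have hl := hN₁ N hN1
  obtain ⟨h7, hf⟩ := h N hN0
  have hQ : Q m b N - (C + K) = 2 * Real.logb (c m b) N
      - 2 * Real.logb (c m b) (Real.logb (c m b) N) - C := by
    unfold Q
    rw [hK]
    have e1 : Real.exp 1 * N / (2 * Real.logb (c m b) N)
        = (Real.exp 1 / 2) * (N / Real.logb (c m b) N) := by
      field_simp
    have hl0 : Real.logb (c m b) N ≠ 0 := by linarith
    rw [e1, Real.logb_mul (by positivity) (div_ne_zero hNR.ne' hl0),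
      Real.logb_div hNR.ne' hl0]
    ring
  rw [hQ]
  refine ⟨h7, ?_⟩
  intro q hq
  obtain ⟨σ, hσ, hplay⟩ := Pool.Agent.Helper340.MB.exists_strategy hm hf
  refine ⟨fun p => σ p.maker p.breaker, fun p => hσ p.maker p.breaker, ?_⟩
  intro R hR
  obtain ⟨i, hi, hg⟩ := hplay (fun i => (play (fun p => σ p.maker p.breaker) R i).maker)
    (fun i => (play (fun p => σ p.maker p.breaker) R i).breaker) R rfl rfl
    (fun _ => rfl) (fun _ => rfl) (fun i => hR i)
  exact ⟨i, hi, Pool.Agent.Helper340.MB.HasClique.mono (Nat.le_floor hq) hg⟩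

end Pool.Agent.Results.MP_ba8873_co.LowerBound
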